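import Mathlib

/-! Diagonal intersections of club sets in well-orders of uncountable regular type, and the
reduction of stationary rainbow sets modulo the nonstationary ideal. -/

set_option autoImplicit false
set_option linter.unusedSectionVars false

universe u

namespace Pool.Agent.Work.MP_4a9266_lc

open Set Order Cardinal

attribute [local instance] WellFoundedLT.toOrderBot WellFoundedLT.conditionallyCompleteLinearOrderBot

variable {α : Type u} [LinearOrder α] [WellFoundedLT α]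

theorem bdd_of_card (s : Set α) (h : #s < cof α) : BddAbove s :=
  .of_not_isCofinal fun h' => (cof_le h').not_gt h

/-- Diagonal intersections of club sets are club sets. -/
theorem isClub_diag [Nonempty α] [NoMaxOrder α] (hα : ℵ₀ < cof α)
    (hreg : ∀ a : α, #(Iic a) < cof α) {C : α → Set α} (hC : ∀ a, IsClub (C a)) :
    IsClub {b | ∀ a < b, b ∈ C a} := by
  refine ⟨?_, ?_⟩
  · intro t ht hne hdir b hb a hab
    obtain ⟨t₀, ht₀, hat⟩ : ∃ t₀ ∈ t, a < t₀ := by
      by_contra hcon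
      push Not at hcon
      exact (hb.2 hcon).not_gt hab
    refine (hC a).isLUB_mem (t := {x ∈ t | t₀ ≤ x}) ?_ ⟨t₀, ht₀, le_rfl⟩ ?_
    · rintro x ⟨hx, hx₀⟩
      exact ht hx a (hat.trans_le hx₀)
    · refine ⟨fun x hx => hb.1 hx.1, fun y hy => hb.2 fun x hx => ?_⟩
      rcases le_total t₀ x with h | h
      · exact hy ⟨hx, h⟩
      · exact h.trans (hy ⟨ht₀, le_rfl⟩)
  · intro x
    have hI : ∀ y : α, ∃ z, y < z ∧ ∀ a ≤ y, z ∈ C a := by
      intro y
      have h1 : IsClub (⋂ a : Iic y, C a) := by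
        refine IsClub.iInter hα.ne' ?_ fun a => hC a
        simpa using hreg y
      obtain ⟨w, hw⟩ := exists_gt y
      obtain ⟨z, hz, hwz⟩ := h1.isCofinal w
      exact ⟨z, hw.trans_le hwz, fun a ha => mem_iInter.1 hz ⟨a, ha⟩⟩
    choose g hg1 hg2 using hI
    let s : ℕ → α := Nat.rec x fun _ y => g y
    have hs : ∀ n, s (n + 1) = g (s n) := fun n => rfl
    have hmono : StrictMono s := strictMono_nat_of_lt_succ fun n => by
      rw [hs]
      exact hg1 _
    have hbdd : BddAbove (range s) := by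
      refine bdd_of_card _ (hα.trans_le' ?_)
      simpa using mk_range_le_lift (f := s)
    refine ⟨sSup (range s), ?_, le_csSup hbdd ⟨0, rfl⟩⟩
    intro a ha
    obtain ⟨_, ⟨n, rfl⟩, hn⟩ := exists_lt_of_lt_csSup (range_nonempty _) ha
    refine (hC a).isLUB_mem (t := range fun k => s (n + 1 + k)) ?_ (range_nonempty _) ?_
    · rintro _ ⟨k, rfl⟩
      have h1 : s (n + 1 + k) = g (s (n + k)) := by
        rw [show n + 1 + k = n + k + 1 by omega]
      show s (n + 1 + k) ∈ C a
      rw [h1]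
      exact hg2 _ a (hn.le.trans (hmono.monotone (Nat.le_add_right n k)))
    · refine ⟨?_, fun y hy => csSup_le (range_nonempty _) ?_⟩
      · rintro _ ⟨k, rfl⟩
        exact le_csSup hbdd ⟨_, rfl⟩
      · rintro _ ⟨k, rfl⟩
        exact (hmono.monotone (by omega : k ≤ n + 1 + k)).trans (hy ⟨k, rfl⟩)

theorem isClub_Ioi [NoMaxOrder α] (x : α) : IsClub (Ioi x) := by
  refine ⟨?_, ?_⟩
  · intro t ht hne _ b hb
    obtain ⟨y, hy⟩ := hne
    exact (show x < y from ht hy).trans_le (hb.1 hy)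
  · intro y
    obtain ⟨z, hz⟩ := exists_gt (max x y)
    exact ⟨z, (le_max_left x y).trans_lt hz, ((le_max_right x y).trans_lt hz).le⟩

/-- Closure points of a function. -/
theorem isClub_closure [Nonempty α] [NoMaxOrder α] (hα : ℵ₀ < cof α)
    (hreg : ∀ a : α, #(Iic a) < cof α) (F : α → α) : IsClub {d | ∀ b < d, F b < d} :=
  isClub_diag hα hreg fun b => isClub_Ioi (F b)

/-- Diagonal unions of nonstationary sets are nonstationary. -/
theorem null_diag [Nonempty α] [NoMaxOrder α] (hα : ℵ₀ < cof α)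
    (hreg : ∀ a : α, #(Iic a) < cof α) {T : α → Set α} (hT : ∀ a, ¬ IsStationary (T a)) :
    ¬ IsStationary {b | ∃ a < b, b ∈ T a} := by
  have h : ∀ a, ∃ t, IsClub t ∧ Disjoint (T a) t := fun a => not_isStationary_iff.1 (hT a)
  choose C hC hd using h
  rw [not_isStationary_iff]
  refine ⟨_, isClub_diag hα hreg hC, ?_⟩
  rw [Set.disjoint_left]
  rintro b ⟨a, hab, hb⟩ hb'
  exact Set.disjoint_left.1 (hd a) hb (hb' a hab)

theorem null_union (hα : ℵ₀ < cof α) {s t : Set α} (hs : ¬ IsStationary s)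
    (ht : ¬ IsStationary t) : ¬ IsStationary (s ∪ t) := by
  rw [isStationary_union_iff hα.ne']
  tauto

theorem null_iic [NoMaxOrder α] (x : α) : ¬ IsStationary (Iic x) := by
  rw [not_isStationary_iff]
  refine ⟨Ioi x, isClub_Ioi x, ?_⟩
  rw [Set.disjoint_left]
  intro b hb hb'
  exact not_lt_of_ge hb hb'

/-- Unions of few nonstationary sets. -/
theorem null_iUnion_lt (hα : ℵ₀ < cof α) (hreg : ∀ a : α, #(Iic a) < cof α) (c : α)
    {T : α → Set α} (hT : ∀ a < c, ¬ IsStationary (T a)) :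
    ¬ IsStationary {b | ∃ a < c, b ∈ T a} := by
  have h1 : {b | ∃ a < c, b ∈ T a} = ⋃ a : Iio c, T a := by
    ext b
    simp
  have h2 : #(Iio c) < cof α := (mk_le_mk_of_subset Iio_subset_Iic_self).trans_lt (hreg c)
  rw [h1, isStationary_iUnion_iff hα.ne' (by simpa using h2)]
  rintro ⟨a, ha⟩
  exact hT a a.2 ha

theorem stat_diff (hα : ℵ₀ < cof α) {s t : Set α} (hs : IsStationary s)
    (ht : ¬ IsStationary t) : IsStationary (s \ t) := by
  by_contra hcon
  refine null_union hα hcon ht (hs.mono ?_)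
  intro x hx
  by_cases h : x ∈ t
  · exact Or.inr h
  · exact Or.inl ⟨hx, h⟩

theorem stat_inter (hα : ℵ₀ < cof α) {s t : Set α} (hs : IsStationary s) (ht : IsClub t) :
    IsStationary (s ∩ t) := by
  intro u hu
  obtain ⟨x, hx1, hx2⟩ := hs (ht.inter hα.ne' hu)
  exact ⟨x, ⟨hx1, hx2.1⟩, hx2.2⟩

/-- Two-bounded colourings of the pairs `a < b`. -/
def TwoBounded {C : Type u} (f : α → α → C) : Prop :=
  ∀ c : C, {p : α × α | p.1 < p.2 ∧ f p.1 p.2 = c}.encard ≤ 2

/-- Rainbow sets. -/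
def Rainbow {C : Type u} (f : α → α → C) (H : Set α) : Prop :=
  ∀ a ∈ H, ∀ b ∈ H, ∀ c ∈ H, ∀ d ∈ H, a < b → c < d → f a b = f c d → a = c ∧ b = d

theorem three {C : Type u} {f : α → α → C} (hf : TwoBounded f) {a b a' b' a'' b'' : α}
    (h1 : a < b) (h2 : a' < b') (h3 : a'' < b'') (e1 : f a b = f a' b') (e2 : f a b = f a'' b'')
    (n1 : (a, b) ≠ (a', b')) (n2 : (a, b) ≠ (a'', b'')) (n3 : (a', b') ≠ (a'', b'')) : False := by
  have h := hf (f a b)
  have hsub : ({(a, b), (a', b'), (a'', b'')} : Set (α × α)) ⊆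
      {p : α × α | p.1 < p.2 ∧ f p.1 p.2 = f a b} := by
    intro p hp
    simp only [mem_insert_iff, mem_singleton_iff] at hp
    rcases hp with rfl | rfl | rfl
    · exact ⟨h1, rfl⟩
    · exact ⟨h2, e1.symm⟩
    · exact ⟨h3, e2.symm⟩
  have h4 := (encard_le_encard hsub).trans h
  rw [encard_insert_of_notMem (by simp [n1, n2]), encard_pair n3] at h4
  norm_num at h4

/-- From a rainbow set modulo nonstationary sets to rainbow, for one colouring. -/
theorem rainbow_of [Nonempty α] [NoMaxOrder α] (hα : ℵ₀ < cof α)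
    (hreg : ∀ a : α, #(Iic a) < cof α) {C : Type u} {f : α → α → C} (hf : TwoBounded f)
    {S : Set α} (hS : IsStationary S)
    (hnull : ∀ a ∈ S, ∀ c ∈ S, a < c → ¬ IsStationary {b ∈ S | c < b ∧ f a b = f c b}) :
    ∃ H ⊆ S, IsStationary H ∧ Rainbow f H := by
  -- closure points
  have hF : ∀ b : α, ∃ z, ∀ a < b, ∀ c d, c < d → f c d = f a b → d ≤ z := by
    intro b
    have h1 : BddAbove (⋃ a : Iio b, {d : α | ∃ c, c < d ∧ f c d = f a b}) := by
      refine bdd_of_card _ ?_
      have h2 : #(⋃ a : Iio b, {d : α | ∃ c, c < d ∧ f c d = f a b}) ≤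
          #(Iio b) * ⨆ a : Iio b, #{d : α | ∃ c, c < d ∧ f c d = f a b} := mk_iUnion_le _
      refine h2.trans_lt ?_
      have h3 : (⨆ a : Iio b, #{d : α | ∃ c, c < d ∧ f c d = f a b}) ≤ ℵ₀ := by
        refine ciSup_le' fun a => ?_
        have h4 : {d : α | ∃ c, c < d ∧ f c d = f a b} =
            Prod.snd '' {p : α × α | p.1 < p.2 ∧ f p.1 p.2 = f a b} := by
          ext d
          simp
        have h5 : ({p : α × α | p.1 < p.2 ∧ f p.1 p.2 = f a b}).Finite :=
          Set.finite_of_encard_le_coe (hf (f a b))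
        have h6 : {d : α | ∃ c, c < d ∧ f c d = f a b}.Finite := by
          rw [h4]
          exact h5.image _
        exact h6.lt_aleph0.le
      have h7 : #(Iio b) < cof α := (mk_le_mk_of_subset Iio_subset_Iic_self).trans_lt (hreg b)
      exact mul_lt_of_lt hα.le h7 (h3.trans_lt hα)
    obtain ⟨z, hz⟩ := h1
    refine ⟨z, fun a ha c d hcd he => hz ?_⟩
    exact mem_iUnion.2 ⟨⟨a, ha⟩, c, hcd, he⟩
  choose F hF using hF
  have hK := isClub_closure hα hreg F
  set K := {d | ∀ b < d, F b < d} with hKdef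
  -- bad points
  have hbad : ¬ IsStationary {b | ∃ c < b, b ∈ {b | ∃ a < c, b ∈ {b | a ∈ S ∧ c ∈ S ∧ b ∈ S ∧
      c < b ∧ f a b = f c b}}} := by
    refine null_diag hα hreg fun c => null_iUnion_lt hα hreg c fun a hac => ?_
    by_cases ha : a ∈ S ∧ c ∈ S
    · intro h
      refine hnull a ha.1 c ha.2 hac (h.mono ?_)
      rintro b ⟨-, -, hb, hcb, he⟩
      exact ⟨hb, hcb, he⟩
    · have h1 : {b | a ∈ S ∧ c ∈ S ∧ b ∈ S ∧ c < b ∧ f a b = f c b} = ∅ := by
        ext b
        simp only [mem_ofPred_eq, mem_empty_iff_false, iff_false]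
        rintro ⟨h1, h2, -⟩
        exact ha ⟨h1, h2⟩
      rw [h1]
      exact not_isStationary_empty
  refine ⟨(S ∩ K) \ _, ?_, stat_diff hα (stat_inter hα hS hK) hbad, ?_⟩
  · intro x hx
    exact hx.1.1
  · rintro a ⟨⟨haS, haK⟩, -⟩ b ⟨⟨hbS, hbK⟩, hb⟩ c ⟨⟨hcS, hcK⟩, -⟩ d ⟨⟨hdS, hdK⟩, hd⟩ hab hcd he
    have hbd : b = d := by
      rcases lt_trichotomy b d with h | h | h
      · exact absurd (hdK b h) (not_lt_of_ge (hF b a hab c d hcd he.symm))
      · exact h
      · exact absurd (hbK d h) (not_lt_of_ge (hF d c hcd a b hab he))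
    subst hbd
    refine ⟨?_, rfl⟩
    rcases lt_trichotomy a c with h | h | h
    · exact absurd ⟨c, hcd, a, h, haS, hcS, hbS, hcd, he⟩ hb
    · exact h
    · exact absurd ⟨a, hab, c, h, hcS, haS, hbS, hab, he.symm⟩ hb

/-- Unions of few nonstationary sets, closed form. -/
theorem null_iUnion_le (hα : ℵ₀ < cof α) (hreg : ∀ a : α, #(Iic a) < cof α) (c : α)
    {T : α → Set α} (hT : ∀ a ≤ c, ¬ IsStationary (T a)) :
    ¬ IsStationary {b | ∃ a ≤ c, b ∈ T a} := by
  have h1 : {b | ∃ a ≤ c, b ∈ T a} = ⋃ a : Iic c, T a := by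
    ext b
    simp
  rw [h1, isStationary_iUnion_iff hα.ne' (by simpa using hreg c)]
  rintro ⟨a, ha⟩
  exact hT a a.2 ha

/-- **Equivalence**, general form. -/
theorem equiv [Nonempty α] [NoMaxOrder α] (hα : ℵ₀ < cof α)
    (hreg : ∀ a : α, #(Iic a) < cof α) (S₀ : Set α) :
    (∀ (C : Type u) (f : α → α → C), TwoBounded f → ∃ H ⊆ S₀, IsStationary H ∧ Rainbow f H) ↔
    (∀ A : α → α → Set α,
      (∀ a c, A a c = A c a) →
      (∀ a c d, a ≠ c → a ≠ d → c ≠ d → ¬ IsStationary (A a c ∩ A a d)) →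
      ∃ S ⊆ S₀, IsStationary S ∧ ∀ a ∈ S, ∀ c ∈ S, a ≠ c → ¬ IsStationary (S ∩ A a c)) := by
  classical
  constructor
  · intro h1 A hsym hA
    -- the points at which the relation is not a matching
    let T : α → α → α → Set α := fun a c d =>
      if a ≠ c ∧ a ≠ d ∧ c ≠ d then A a c ∩ A a d else ∅
    have hT : ∀ a c d, ¬ IsStationary (T a c d) := by
      intro a c d
      by_cases h : a ≠ c ∧ a ≠ d ∧ c ≠ d
      · have e : T a c d = A a c ∩ A a d := if_pos h
        rw [e]
        exact hA a c d h.1 h.2.1 h.2.2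
      · have e : T a c d = ∅ := if_neg h
        rw [e]
        exact not_isStationary_empty
    set N : Set α := {b | ∃ x < b, b ∈ {b | ∃ a ≤ x, b ∈ {b | ∃ c ≤ x, b ∈ {b | ∃ d ≤ x,
      b ∈ T a c d}}}} with hNdef
    have hN : ¬ IsStationary N :=
      null_diag hα hreg fun x => null_iUnion_le hα hreg x fun a _ =>
        null_iUnion_le hα hreg x fun c _ => null_iUnion_le hα hreg x fun d _ => hT a c d
    have hN' : ∀ a c d b, a ≠ c → a ≠ d → c ≠ d → a < b → c < b → d < b → b ∈ A a c →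
        b ∈ A a d → b ∈ N := by
      intro a c d b h1 h2 h3 hab hcb hdb hc hd
      refine ⟨max a (max c d), max_lt hab (max_lt hcb hdb), a, le_max_left _ _, c,
        (le_max_left c d).trans (le_max_right _ _), d, (le_max_right c d).trans (le_max_right _ _),
        ?_⟩
      have e : T a c d = A a c ∩ A a d := if_pos ⟨h1, h2, h3⟩
      rw [e]
      exact ⟨hc, hd⟩
    -- the colouring
    have hp : ∀ a b, ∃ c, ((∃ c, c < b ∧ c ≠ a ∧ b ∈ A a c ∧ b ∉ N) →
        (c < b ∧ c ≠ a ∧ b ∈ A a c ∧ b ∉ N)) ∧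
        ((¬ ∃ c, c < b ∧ c ≠ a ∧ b ∈ A a c ∧ b ∉ N) → c = a) := by
      intro a b
      by_cases h : ∃ c, c < b ∧ c ≠ a ∧ b ∈ A a c ∧ b ∉ N
      · obtain ⟨c, hc⟩ := h
        exact ⟨c, fun _ => hc, fun h => absurd ⟨c, hc⟩ h⟩
      · exact ⟨a, fun h' => absurd h' h, fun _ => rfl⟩
    choose p hp1 hp2 using hp
    let f : α → α → α × α × α := fun a b => (min a (p a b), max a (p a b), b)
    have hf : TwoBounded f := by
      rintro ⟨x, y, z⟩
      have hsub : {q : α × α | q.1 < q.2 ∧ f q.1 q.2 = (x, y, z)} ⊆ {(x, z), (y, z)} := by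
        rintro ⟨a, b⟩ ⟨hab, he⟩
        have e1 : min a (p a b) = x := congrArg Prod.fst he
        have e2 : max a (p a b) = y := congrArg (fun t => t.2.1) he
        have e3 : b = z := congrArg (fun t => t.2.2) he
        rcases le_total a (p a b) with h | h
        · left
          rw [min_eq_left h] at e1
          rw [e1, e3]
        · right
          rw [max_eq_left h] at e2
          rw [e2, e3]
          rfl
      refine (encard_le_encard hsub).trans ((encard_insert_le _ _).trans ?_)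
      rw [encard_singleton]
      norm_num
    obtain ⟨H, hH₀, hH, hr⟩ := h1 _ f hf
    refine ⟨H \ N, fun x hx => hH₀ hx.1, stat_diff hα hH hN, ?_⟩
    rintro a ⟨haH, -⟩ c ⟨hcH, -⟩ hac hst
    refine null_iic (max a c) (hst.mono ?_)
    rintro b ⟨⟨hbH, hbN⟩, hbA⟩
    by_contra hb
    have hb' : max a c < b := lt_of_not_ge hb
    have hab : a < b := (le_max_left _ _).trans_lt hb'
    have hcb : c < b := (le_max_right _ _).trans_lt hb'
    have hpa : p a b = c := by
      obtain ⟨h3, h4, h5, -⟩ := hp1 a b ⟨c, hcb, hac.symm, hbA, hbN⟩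
      by_contra h6
      exact hbN (hN' a c (p a b) b hac h4.symm (Ne.symm h6) hab hcb h3 hbA h5)
    have hpc : p c b = a := by
      rw [hsym] at hbA
      obtain ⟨h3, h4, h5, -⟩ := hp1 c b ⟨a, hab, hac, hbA, hbN⟩
      by_contra h6
      exact hbN (hN' c a (p c b) b hac.symm h4.symm (Ne.symm h6) hcb hab h3 hbA h5)
    have he : f a b = f c b := by
      show (min a (p a b), max a (p a b), b) = (min c (p c b), max c (p c b), b)
      rw [hpa, hpc, min_comm, max_comm]
    exact hac (hr a haH b hbH c hcH b hbH hab hcb he).1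
  · intro h2 C f hf
    obtain ⟨S, hS₀, hS, hnull⟩ := h2 (fun a c => {b | max a c < b ∧ f a b = f c b}) (by
      intro a c
      ext b
      simp only [mem_ofPred_eq, max_comm a c]
      exact ⟨fun h => ⟨h.1, h.2.symm⟩, fun h => ⟨h.1, h.2.symm⟩⟩) (by
      intro a c d hac had hcd hst
      obtain ⟨b, ⟨h3, h4⟩, h5, h6⟩ := hst.nonempty
      have hab : a < b := (le_max_left _ _).trans_lt h3
      have hcb : c < b := (le_max_right _ _).trans_lt h3
      have hdb : d < b := (le_max_right _ _).trans_lt h5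
      exact three hf hab hcb hdb h4 h6 (by simp [hac]) (by simp [had]) (by simp [hcd]))
    obtain ⟨H, hH, hst, hr⟩ := rainbow_of hα hreg hf hS (by
      intro a ha c hc hac h
      refine hnull a ha c hc hac.ne (h.mono ?_)
      rintro b ⟨hb, hcb, he⟩
      exact ⟨hb, by rwa [max_eq_right hac.le], he⟩)
    exact ⟨H, hH.trans hS₀, hst, hr⟩

end Pool.Agent.Work.MP_4a9266_lc
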